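import Mathlib
import Pool.Agent.Lib_MP_394d50_ho.HDefs
import Pool.Agent.Lib_MP_394d50_ho.OMain

set_option autoImplicit false

namespace Pool.Agent.Results.MP_394d50_gt.Hierarchies

open SingerVS SingerRN SingerHK

/-- The Singer conjecture for the closed aspherical manifolds which have, virtually, a hierarchy whose end pieces have
groups which are virtually in the class `OrdCls` or, in even dimensions, arbitrary groups. `X` is a simplicial complex with a
free simplicial action of the group `Γ` with finitely many orbits of simplices, `M = geo X / Γ`; `X` is contractible (or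
acyclic over `F₂`) and an `n`-manifold (or a homology `n`-manifold over `F₂`), and for a subgroup `K` of finite index
the complex `X` has a `K`-equivariant hierarchy. Then the `ℓ²`-Betti numbers of `M` vanish outside the middle
dimension, the one in the middle dimension is the Euler characteristic up to the sign `(-1)ᵏ`, and all of them
vanish if and only if the Euler characteristic is zero. -/
theorem result (n : ℕ) (P Γ : Type) [LinearOrder P] [Group Γ] [MulAction Γ P]
    (X : Set (Finset P)) (hX : FreeCx Γ X)
    (hA : ContractibleSpace (geo X) ∨ Acyc X) (hM : LocEuc n (geo X) ∨ HomMfd n X)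
    (K : Subgroup Γ) (hK : K.FiniteIndex) (h : HierO n (StratO n) (⊤ : Subgroup K) X ∅) :
    (∀ k, 2 * k ≠ n → bettiX Γ X k = 0) ∧
    (∀ k, 2 * k = n → bettiX Γ X k = (-1 : ℝ) ^ k * (chiX Γ X : ℝ)) ∧
    ((∀ k, bettiX Γ X k = 0) ↔ chiX Γ X = 0) ∧
    (∀ k, 2 * k = n → 0 ≤ (-1) ^ k * chiX Γ X) :=
  main_ho hX hA hM K hK h

end Pool.Agent.Results.MP_394d50_gt.Hierarchies
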