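import Mathlib
import Pool.Agent.Lib_MP_394d50_lg.HMain
import Pool.Agent.Lib_MP_394d50_lg.QFin

set_option autoImplicit false

namespace Pool.Agent.Results.MP_394d50_gt.LocalGlobal

open SingerLG SingerCub SingerRA SingerVS

open scoped Classical in
/-- The local-to-global theorem for the `ℓ²`-Betti numbers of compact non-positively curved cube
complexes, and the Singer conjecture for non-positively curved cubed manifolds.

`X` is a CAT(0) cube complex, given by the set `H` of its half-spaces (`st` is the complement) and by
the set `V` of its vertices, and the group `Γ` acts on it, freely on the cubes and with finitely many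
orbits of cubes (`CubAct`). `VirtEmb`: for some subgroup `K` of finite index in `Γ` no hyperplane
crosses one of its translates by `K` (the hyperplanes of the finite covering `X/K` of `X/Γ` are
embedded). There is no other hypothesis on `Γ`: it need not be residually finite.

(1) In every degree `k` the `ℓ²`-Betti number of `X/Γ` is at most the sum, over the vertices of `X/Γ`,
of the `k`-th `ℓ²`-Betti numbers of the right-angled Coxeter groups of their links.

(2) If `X` is a topological `n`-manifold, or a homology `n`-manifold over `F₂`, or all links of
vertices are homology `(n-1)`-spheres over `F₂`, then the `ℓ²`-Betti numbers of `X/Γ` vanish outside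
the middle dimension, the one in the middle dimension is the Euler characteristic up to the sign
`(-1)ᵏ`, and all of them vanish if and only if the Euler characteristic is zero.
(`cubX st Set.univ V` is the barycentric subdivision of `X`, and `geo` is its geometric realization.) -/
theorem result (H Γ : Type) [Group Γ] [MulAction Γ H] [LinearOrder H] (st : H → H)
    (V : Set (Set H)) (hX : CubAct Γ st V) (hK : VirtEmb Γ st V) :
    (∀ k, bettiC Γ st V k ≤ lkSum Γ st V k) ∧
    ∀ n, (LocEuc n (geo (cubX st Set.univ V)) ∨ HomMfd n (cubX st Set.univ V) ∨
        ∀ v ∈ V, ∃ _ : Fintype (Edg st V v), F2Sphere n (lkH st V v)) →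
      (∀ k, 2 * k ≠ n → bettiC Γ st V k = 0) ∧
      (∀ k, 2 * k = n → bettiC Γ st V k = (-1 : ℝ) ^ k * (chiC Γ st V : ℝ)) ∧
      (∀ k, 2 * k = n → 0 ≤ (-1) ^ k * chiC Γ st V) ∧
      ((∀ k, bettiC Γ st V k = 0) ↔ chiC Γ st V = 0) := by
  refine ⟨fun k => betti_le_link hX hK k, fun n hM => ?_⟩
  have hL : ∀ v ∈ V, ∃ _ : Fintype (Edg st V v), F2Sphere n (lkH st V v) := by
    let iC : LinearOrder (Cb H) := linearOrderOfSTO WellOrderingRel
    rcases hM with h | h | h
    · exact f2_of_mfd hX (Or.inl h)
    · exact f2_of_mfd hX (Or.inr (homMfd_dec _ _ h))
    · exact h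
  exact singer_cub hX hK n hL

end Pool.Agent.Results.MP_394d50_gt.LocalGlobal
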