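import Mathlib
import Pool.Agent.Lib_MP_394d50_oc.CMain

set_option autoImplicit false

namespace Pool.Agent.Results.MP_394d50_gt.OrderClass

open SingerVS SingerRN SingerBO

/-- The Singer conjecture, in all dimensions `n`, for the closed aspherical manifolds whose
fundamental group is virtually in the smallest class of groups which contains the bi-orderable
groups and the locally indicable amenable groups and is closed under extensions and directed unions.
`X` is a simplicial complex with a free simplicial action of the group `Γ` with finitely many orbits
of simplices. Its realization `geo X` is contractible (it is enough that `X` is acyclic over `F₂`),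
and is a topological `n`-manifold (it is enough that `X` is a homology `n`-manifold over `F₂`, or
that it has the locally finite homology of `ℝⁿ` over `F₂`, in any dimension of `X`); so `X` is the
universal covering of the closed aspherical manifold (or of the finite Poincaré complex over `F₂`)
`M = geo X / Γ`. If a subgroup of finite index of `Γ` belongs to the class, then the `ℓ²`-Betti
numbers of `M` vanish outside the middle dimension, the one in the middle dimension is the Euler
characteristic up to the sign `(-1)ᵏ`, and all of them vanish if and only if the Euler
characteristic is zero. There is no condition on the extensions (the kernel and the quotient are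
arbitrary groups of the class, the action is arbitrary), and no residual finiteness is assumed. -/
theorem result (n : ℕ) (P Γ : Type) [LinearOrder P] [Group Γ] [MulAction Γ P]
    (X : Set (Finset P)) (hX : FreeCx Γ X) (hA : ContractibleSpace (geo X) ∨ Acyc X)
    (hM : LocEuc n (geo X) ∨ HomMfd n X ∨ PdR n X) (hΓ : VirtOrdCls Γ) :
    (∀ k, 2 * k ≠ n → bettiX Γ X k = 0) ∧
    (∀ k, 2 * k = n → bettiX Γ X k = (-1 : ℝ) ^ k * (chiX Γ X : ℝ)) ∧
    ((∀ k, bettiX Γ X k = 0) ↔ chiX Γ X = 0) ∧
    (∀ k, 2 * k = n → 0 ≤ (-1) ^ k * chiX Γ X) :=
  main_top_oc hX (hA.elim Or.inr Or.inl)
    (hM.elim (fun h => Or.inr (Or.inr h)) (fun h => h.elim Or.inl (fun h => Or.inr (Or.inl h)))) hΓ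

end Pool.Agent.Results.MP_394d50_gt.OrderClass
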