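import Mathlib
import Pool.Agent.Lib_MP_394d50_rn.MNR

set_option autoImplicit false

namespace Pool.Agent.Results.MP_394d50_gt.ResiduallyAmenable

open SingerVS SingerRN

/-- The Singer conjecture, in all dimensions `n`, for the closed aspherical manifolds whose
fundamental group is virtually residually (amenable, left-orderable and residually finite). `X` is a
simplicial complex with a free simplicial action of the group `Γ` with finitely many orbits of
simplices. Its realization `geo X` is contractible (it is enough that `X` is acyclic over `F₂`), and
is a topological `n`-manifold (it is enough that `X` is a homology `n`-manifold over `F₂`, or that it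
has the locally finite homology of `ℝⁿ` over `F₂`, in any dimension of `X`); so `X` is the universal
covering of the closed aspherical manifold (or of the finite Poincaré complex over `F₂`)
`M = geo X / Γ`. If a subgroup of finite index of `Γ` is residually (amenable, left-orderable and
residually finite), then the `ℓ²`-Betti numbers of `M` vanish outside the middle dimension, the one
in the middle dimension is the Euler characteristic up to the sign `(-1)ᵏ`, and all of them vanish if
and only if the Euler characteristic is zero. -/
theorem result (n : ℕ) (P Γ : Type) [LinearOrder P] [Group Γ] [MulAction Γ P]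
    (X : Set (Finset P)) (hX : FreeCx Γ X) (hA : ContractibleSpace (geo X) ∨ Acyc X)
    (hM : LocEuc n (geo X) ∨ HomMfd n X ∨ PdR n X) (hΓ : VirtRes Γ) :
    (∀ k, 2 * k ≠ n → bettiX Γ X k = 0) ∧
    (∀ k, 2 * k = n → bettiX Γ X k = (-1 : ℝ) ^ k * (chiX Γ X : ℝ)) ∧
    ((∀ k, bettiX Γ X k = 0) ↔ chiX Γ X = 0) ∧
    (∀ k, 2 * k = n → 0 ≤ (-1) ^ k * chiX Γ X) :=
  main_top_rn hX (hA.elim Or.inr Or.inl)
    (hM.elim (fun h => Or.inr (Or.inr h)) (fun h => h.elim Or.inl (fun h => Or.inr (Or.inl h)))) hΓ

end Pool.Agent.Results.MP_394d50_gt.ResiduallyAmenable
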